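import Mathlib

/-!
# Small `(c log d)`-approximate portfolios for all covering polyhedra and all symmetric monotonic norms

For all constants `c, δ > 0` and all sufficiently large `d`, every nonempty covering polyhedron in
`ℝ^d`, with any number of constraints, has a `(c log d)`-approximate portfolio with fewer than `d^δ`
elements.

Let `b` be the integer part of `√(c log d / 4)`.  Fix a point `x₀` of (almost) minimal maximum
coordinate `s`.  A norm whose (almost) optimal point `y` has a coordinate `≥ d s` is approximated by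
`x₀`.  The other points `y` are classified by the function that sends `j` to the integer part of the
logarithm, to the base `b`, of the number of the coordinates of `y` that are at least `d s / b^j`,
for `j = 0, 1, …, n` with `b^n ≥ 2 d²`.  These functions are monotone, so there are only
`2^{O(log d / log b)} = d^{o(1)}` of them.  If two points `x, y` have the same function, then (by
Hall's theorem) `x` is, up to small coordinates, dominated by the sum of `b` vectors which are
obtained from `b y` by permuting the coordinates, so that `‖x‖ ≤ (b² + 1) ‖y‖`.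
-/

set_option autoImplicit false

namespace Pool.Agent.Results.MP_a76361_lc.SubpolynomialPortfolios

open Finset

/-- The covering polyhedron `{x ∈ ℝ^d : x ≥ 0, A x ≥ b}`. -/
def coveringPolyhedron {r d : ℕ} (A : Matrix (Fin r) (Fin d) ℝ) (b : Fin r → ℝ) :
    Set (Fin d → ℝ) :=
  {x | (∀ j, 0 ≤ x j) ∧ ∀ i, b i ≤ ∑ j, A i j * x j}

/-- Symmetric monotonic norms on `ℝ^d`. -/
structure IsSymMonNorm {d : ℕ} (f : (Fin d → ℝ) → ℝ) : Prop where
  /-- triangle inequality -/
  add_le : ∀ x y, f (x + y) ≤ f x + f y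
  /-- homogeneity -/
  smul : ∀ (t : ℝ) (x : Fin d → ℝ), f (t • x) = |t| * f x
  /-- definiteness -/
  eq_zero : ∀ x, f x = 0 → x = 0
  /-- invariance under permutations of the coordinates -/
  symm : ∀ (σ : Equiv.Perm (Fin d)) (x : Fin d → ℝ), f (x ∘ σ) = f x
  /-- monotonicity on the nonnegative orthant -/
  mono : ∀ x y : Fin d → ℝ, (∀ i, 0 ≤ x i) → (∀ i, x i ≤ y i) → f x ≤ f y

/-- The finite set `X ⊆ P` is an `α`-approximate portfolio for `P`: for every symmetric monotonic
norm `f`, some `x ∈ X` satisfies `f x ≤ α * inf_{y ∈ P} f y`. -/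
def IsPortfolio {d : ℕ} (α : ℝ) (P : Set (Fin d → ℝ)) (X : Finset (Fin d → ℝ)) : Prop :=
  ↑X ⊆ P ∧ ∀ f : (Fin d → ℝ) → ℝ, IsSymMonNorm f → ∃ x ∈ X, f x ≤ α * sInf (f '' P)

namespace IsSymMonNorm

variable {d : ℕ} {f : (Fin d → ℝ) → ℝ} (hf : IsSymMonNorm f)

include hf

lemma zero : f 0 = 0 := by
  have := hf.smul 0 0
  simpa using this

lemma nonneg (x : Fin d → ℝ) : 0 ≤ f x := by
  have h1 := hf.add_le x ((-1 : ℝ) • x)
  have h2 := hf.smul (-1) x
  rw [h2] at h1
  have h3 : x + (-1 : ℝ) • x = 0 := by simp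
  rw [h3, hf.zero] at h1
  simp at h1
  linarith

lemma smul_nonneg {t : ℝ} (ht : 0 ≤ t) (x : Fin d → ℝ) : f (t • x) = t * f x := by
  rw [hf.smul, abs_of_nonneg ht]

lemma single_eq (i j : Fin d) : f (Pi.single i 1) = f (Pi.single j 1) := by
  rw [← hf.symm (Equiv.swap i j) (Pi.single j 1)]
  congr 1
  funext k
  simp only [Function.comp, Pi.single_apply]
  by_cases h : k = i
  · subst h; simp
  · by_cases h2 : k = j
    · subst h2
      have h3 : i ≠ k := fun h' => h h'.symm
      simp [h, h3]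
    · rw [Equiv.swap_apply_of_ne_of_ne h h2, if_neg h, if_neg h2]

/-- A vector with coordinates between `0` and `t` has norm at most `t d` times the norm of a unit
vector. -/
lemma le_of_le (i₀ : Fin d) {x : Fin d → ℝ} {t : ℝ} (ht : 0 ≤ t) (h0 : ∀ i, 0 ≤ x i)
    (h1 : ∀ i, x i ≤ t) : f x ≤ t * d * f (Pi.single i₀ 1) := by
  have h2 : f x ≤ f (t • ∑ i : Fin d, Pi.single i (1 : ℝ)) := by
    apply hf.mono x _ h0
    intro i
    simp only [Pi.smul_apply, Finset.sum_apply, smul_eq_mul]
    rw [Finset.sum_eq_single i]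
    · simpa using h1 i
    · intro j _ hj
      simp [hj.symm]
    · simp
  refine h2.trans ?_
  rw [hf.smul_nonneg ht, mul_assoc]
  refine mul_le_mul_of_nonneg_left ?_ ht
  refine (Finset.le_sum_of_subadditive f hf.zero.le hf.add_le _ _).trans ?_
  have : ∀ i ∈ (univ : Finset (Fin d)), f (Pi.single i 1) = f (Pi.single i₀ 1) := fun i _ =>
    hf.single_eq i i₀
  rw [Finset.sum_congr rfl this]
  simp

/-- The norm of a nonnegative vector is at least its maximum coordinate times the norm of a unit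
vector. -/
lemma ge_coord (i₀ : Fin d) {y : Fin d → ℝ} (h0 : ∀ i, 0 ≤ y i) :
    ‖y‖ * f (Pi.single i₀ 1) ≤ f y := by
  have : Nonempty (Fin d) := ⟨i₀⟩
  obtain ⟨i, hi⟩ : ∃ i, ‖y‖ = y i := by
    obtain ⟨i, -, hi⟩ := Finset.exists_max_image univ y ⟨i₀, mem_univ _⟩
    refine ⟨i, le_antisymm ?_ ?_⟩
    · rw [pi_norm_le_iff_of_nonneg (h0 i)]
      intro j
      rw [Real.norm_eq_abs, abs_of_nonneg (h0 j)]
      exact hi j (mem_univ _)
    · calc y i = ‖y i‖ := by rw [Real.norm_eq_abs, abs_of_nonneg (h0 i)]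
        _ ≤ ‖y‖ := norm_le_pi_norm y i
  rw [hf.single_eq i₀ i, hi, ← hf.smul_nonneg (h0 i)]
  apply hf.mono
  · intro j
    simp only [Pi.smul_apply, Pi.single_apply, smul_eq_mul]
    split_ifs
    · simpa using h0 i
    · simp
  · intro j
    simp only [Pi.smul_apply, Pi.single_apply, smul_eq_mul]
    split_ifs with h
    · subst h; simp
    · simpa using h0 j

lemma single_pos (i₀ : Fin d) : 0 < f (Pi.single i₀ 1) := by
  refine lt_of_le_of_ne (hf.nonneg _) fun h => ?_
  have h1 := congrFun (hf.eq_zero _ h.symm) i₀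
  simp at h1

end IsSymMonNorm

/-- The number of the coordinates of `y` that are at least `t`. -/
noncomputable def cnt {d : ℕ} (y : Fin d → ℝ) (t : ℝ) : ℕ :=
  (univ.filter fun i => t ≤ y i).card

/-- The domination lemma. -/
lemma domination {d : ℕ} {f : (Fin d → ℝ) → ℝ} (hf : IsSymMonNorm f) (i₀ : Fin d)
    {x y : Fin d → ℝ} (hx : ∀ i, 0 ≤ x i) (hy : ∀ i, 0 ≤ y i) {b n : ℕ} (hb : 1 ≤ b) {T : ℝ}
    (hT : 0 < T) (hxT : ∀ i, x i < T) (hsmall : T / b ^ n * d ≤ ‖y‖)
    (hcnt : ∀ j ≤ n, cnt x (T / b ^ j) ≤ b * cnt y (T / b ^ j)) :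
    f x ≤ (b ^ 2 + 1) * f y := by
  classical
  have hb0 : (0 : ℝ) < b := by exact_mod_cast hb
  -- the Hall matching
  let ι : Type := {i : Fin d // T / b ^ n ≤ x i}
  let t : ι → Finset (Fin d × Fin b) := fun i =>
    (univ.filter fun i' => x i.1 ≤ b * y i') ×ˢ (univ : Finset (Fin b))
  have hall : ∀ s : Finset ι, s.card ≤ (s.biUnion t).card := by
    intro s
    rcases s.eq_empty_or_nonempty with rfl | hs
    · simp
    obtain ⟨i, his, himin⟩ := Finset.exists_min_image s (fun i => x i.1) hs
    have hex : ∃ j, j ≤ n ∧ T / b ^ j ≤ x i.1 := ⟨n, le_rfl, i.2⟩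
    obtain ⟨j, ⟨hjn, hj⟩, hjmin⟩ : ∃ j, (j ≤ n ∧ T / b ^ j ≤ x i.1) ∧
        ∀ k < j, ¬ (k ≤ n ∧ T / b ^ k ≤ x i.1) :=
      ⟨Nat.find hex, Nat.find_spec hex, fun k hk => Nat.find_min hex hk⟩
    have hj0 : j ≠ 0 := by
      rintro rfl
      have := hxT i.1
      simp at hj
      linarith
    obtain ⟨k, rfl⟩ := Nat.exists_eq_succ_of_ne_zero hj0
    have hk : x i.1 < T / b ^ k := by
      by_contra hcon
      push Not at hcon
      exact hjmin k (Nat.lt_succ_self k) ⟨by omega, hcon⟩
    calc s.card = (s.image fun i => i.1).card := by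
          rw [Finset.card_image_of_injective _ Subtype.val_injective]
      _ ≤ cnt x (T / b ^ (k + 1)) := by
          apply Finset.card_le_card
          intro l hl
          obtain ⟨l', hl', rfl⟩ := Finset.mem_image.1 hl
          simp only [mem_filter, mem_univ, true_and]
          exact hj.trans (himin l' hl')
      _ ≤ b * cnt y (T / b ^ (k + 1)) := hcnt _ hjn
      _ = ((univ.filter fun i' => T / b ^ (k + 1) ≤ y i') ×ˢ (univ : Finset (Fin b))).card := by
          rw [Finset.card_product, card_univ, Fintype.card_fin, mul_comm]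
          rfl
      _ ≤ (t i).card := by
          apply Finset.card_le_card
          apply Finset.product_subset_product_left
          intro l hl
          simp only [mem_filter, mem_univ, true_and] at hl ⊢
          have h1 : T / b ^ k = b * (T / b ^ (k + 1)) := by
            rw [pow_succ]
            field_simp
          have h2 : b * (T / b ^ (k + 1)) ≤ b * y l := mul_le_mul_of_nonneg_left hl hb0.le
          linarith
      _ ≤ (s.biUnion t).card := Finset.card_le_card (Finset.subset_biUnion_of_mem t his)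
  obtain ⟨φ, hφ, hφt⟩ := (Finset.all_card_le_biUnion_card_iff_exists_injective t).1 hall
  -- the vectors `z l`
  let z : Fin b → Fin d → ℝ := fun l i =>
    if h : T / b ^ n ≤ x i then (if (φ ⟨i, h⟩).2 = l then b * y (φ ⟨i, h⟩).1 else 0) else 0
  have hz0 : ∀ l i, 0 ≤ z l i := by
    intro l i
    simp only [z]
    split_ifs
    · exact mul_nonneg hb0.le (hy _)
    · exact le_rfl
    · exact le_rfl
  have hz : ∀ l, f (z l) ≤ b * f y := by
    intro l
    let p : Fin d → Prop := fun i => ∃ h : T / b ^ n ≤ x i, (φ ⟨i, h⟩).2 = l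
    let g : {i // p i} → Fin d := fun i => (φ ⟨i.1, i.2.choose⟩).1
    have hg : Function.Injective g := by
      intro u v huv
      have h1 : φ ⟨u.1, u.2.choose⟩ = φ ⟨v.1, v.2.choose⟩ :=
        Prod.ext huv (u.2.choose_spec.trans v.2.choose_spec.symm)
      have h2 := hφ h1
      exact Subtype.ext (Subtype.mk_eq_mk.1 h2)
    let e := Equiv.ofInjective g hg
    let π : Equiv.Perm (Fin d) := Equiv.extendSubtype (q := fun j => j ∈ Set.range g) e
    calc f (z l) ≤ f ((b : ℝ) • (y ∘ π)) := by
          apply hf.mono _ _ (hz0 l)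
          intro i
          simp only [Pi.smul_apply, Function.comp, smul_eq_mul]
          by_cases hi : p i
          · have h1 : π i = g ⟨i, hi⟩ := Equiv.extendSubtype_apply_of_mem e i hi
            rw [h1]
            obtain ⟨h2, h3⟩ := hi
            simp only [z, dif_pos h2, if_pos h3]
            exact le_rfl
          · have h1 : z l i = 0 := by
              simp only [z]
              by_cases h2 : T / b ^ n ≤ x i
              · rw [dif_pos h2, if_neg]
                intro h3
                exact hi ⟨h2, h3⟩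
              · rw [dif_neg h2]
            rw [h1]
            exact mul_nonneg hb0.le (hy _)
      _ = b * f y := by rw [hf.smul_nonneg hb0.le, hf.symm]
  -- the small coordinates
  let x' : Fin d → ℝ := fun i => if T / b ^ n ≤ x i then 0 else x i
  have hx' : f x' ≤ f y := by
    have h1 : f x' ≤ T / b ^ n * d * f (Pi.single i₀ 1) := by
      refine hf.le_of_le i₀ (by positivity) ?_ ?_
      · intro i
        simp only [x']
        split_ifs
        · exact le_rfl
        · exact hx i
      · intro i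
        simp only [x']
        split_ifs with h
        · positivity
        · push Not at h
          exact h.le
    refine h1.trans (le_trans ?_ (hf.ge_coord i₀ hy))
    exact mul_le_mul_of_nonneg_right hsmall (hf.nonneg _)
  calc f x ≤ f (x' + ∑ l, z l) := by
        apply hf.mono _ _ hx
        intro i
        simp only [Pi.add_apply, Finset.sum_apply]
        have hsum : ∀ l, z l i ≤ ∑ l, z l i := fun l =>
          Finset.single_le_sum (f := fun l => z l i) (fun k _ => hz0 k i) (mem_univ l)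
        by_cases h : T / b ^ n ≤ x i
        · have h1 := hφt ⟨i, h⟩
          simp only [t, mem_product, mem_filter, mem_univ, true_and, and_true] at h1
          have h2 : z (φ ⟨i, h⟩).2 i = b * y (φ ⟨i, h⟩).1 := by
            simp only [z, dif_pos h, if_true]
          have h3 := hsum (φ ⟨i, h⟩).2
          have h4 : x' i = 0 := if_pos h
          rw [h2] at h3
          rw [h4]
          linarith
        · have h4 : x' i = x i := if_neg h
          have h5 : 0 ≤ ∑ l, z l i := Finset.sum_nonneg fun l _ => hz0 l i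
          rw [h4]
          linarith
    _ ≤ f x' + ∑ l, f (z l) := (hf.add_le _ _).trans
        (add_le_add le_rfl (Finset.le_sum_of_subadditive f hf.zero.le hf.add_le _ _))
    _ ≤ f y + ∑ _l : Fin b, b * f y := add_le_add hx' (Finset.sum_le_sum fun l _ => hz l)
    _ = (b ^ 2 + 1) * f y := by
        rw [Finset.sum_const, card_univ, Fintype.card_fin, nsmul_eq_mul]
        ring

/-- The classifying function. -/
noncomputable def dat {d : ℕ} (b : ℕ) (T : ℝ) (y : Fin d → ℝ) (j : ℕ) : ℕ :=
  Nat.log b (b * cnt y (T / b ^ j))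

lemma cnt_le_card {d : ℕ} (y : Fin d → ℝ) (t : ℝ) : cnt y t ≤ d := by
  refine (Finset.card_filter_le _ _).trans ?_
  simp

lemma cnt_le_of_dat_eq {d b : ℕ} (hb : 2 ≤ b) {T : ℝ} {x y : Fin d → ℝ} {j : ℕ}
    (h : dat b T x j = dat b T y j) :
    cnt x (T / b ^ j) ≤ b * cnt y (T / b ^ j) := by
  unfold dat at h
  generalize cnt x (T / b ^ j) = p at h
  generalize cnt y (T / b ^ j) = q at h
  rcases Nat.eq_zero_or_pos p with rfl | hp
  · simp
  have hbp : b * p ≠ 0 := by positivity
  have h1 : 1 ≤ Nat.log b (b * p) := by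
    apply Nat.le_log_of_pow_le (by omega)
    nlinarith
  have hq : q ≠ 0 := by
    rintro rfl
    rw [h] at h1
    simp at h1
  have h2 : b * p < b ^ (Nat.log b (b * q)).succ := by
    rw [← h]
    exact Nat.lt_pow_succ_log_self (by omega) _
  have h3 : b ^ Nat.log b (b * q) ≤ b * q := Nat.pow_log_le_self b (by positivity)
  rw [Nat.succ_eq_add_one, pow_succ] at h2
  have h4 : b * p < b * (b * q) := by
    calc b * p < b ^ Nat.log b (b * q) * b := h2
      _ ≤ b * q * b := Nat.mul_le_mul_right _ h3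
      _ = b * (b * q) := by ring
  exact (Nat.lt_of_mul_lt_mul_left h4).le

/-- The code of the classifying function. -/
noncomputable def code {d : ℕ} (b n : ℕ) (T : ℝ) (y : Fin d → ℝ) : Finset ℕ :=
  (univ : Finset (Fin (n + 1))).image fun j : Fin (n + 1) => (j : ℕ) + dat b T y j

lemma dat_mono {d b : ℕ} (hb : 1 ≤ b) {T : ℝ} (hT : 0 < T) (y : Fin d → ℝ) :
    Monotone (dat b T y) := by
  intro i j hij
  apply Nat.log_mono_right
  apply Nat.mul_le_mul_left
  apply Finset.card_le_card
  intro k hk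
  simp only [mem_filter, mem_univ, true_and] at hk ⊢
  refine le_trans ?_ hk
  have hb1 : (1 : ℝ) ≤ b := by exact_mod_cast hb
  exact div_le_div_of_nonneg_left hT.le (by positivity) (pow_le_pow_right₀ hb1 hij)

lemma dat_eq_of_code_eq {d b n : ℕ} (hb : 1 ≤ b) {T : ℝ} (hT : 0 < T) {x y : Fin d → ℝ}
    (h : code b n T x = code b n T y) : ∀ j ≤ n, dat b T x j = dat b T y j := by
  have hmono : ∀ w : Fin d → ℝ, StrictMono fun j : Fin (n + 1) => (j : ℕ) + dat b T w j := by
    intro w i j hij
    have h1 := dat_mono hb hT w (le_of_lt (Fin.lt_def.1 hij))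
    have h2 := Fin.lt_def.1 hij
    show (i : ℕ) + dat b T w i < (j : ℕ) + dat b T w j
    omega
  have h1 : Set.range (fun j : Fin (n + 1) => (j : ℕ) + dat b T x j) =
      Set.range fun j : Fin (n + 1) => (j : ℕ) + dat b T y j := by
    have := congrArg (fun s : Finset ℕ => (s : Set ℕ)) h
    simpa [code] using this
  have h2 := ((hmono x).range_inj (hmono y)).1 h1
  intro j hj
  have h3 := congrFun h2 ⟨j, by omega⟩
  simp only at h3
  omega

lemma code_subset {d b n : ℕ} {T : ℝ} (y : Fin d → ℝ) :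
    code b n T y ∈ (range (n + 1 + Nat.log b (b * d))).powerset := by
  rw [mem_powerset]
  intro k hk
  obtain ⟨j, -, rfl⟩ := Finset.mem_image.1 hk
  rw [mem_range]
  have h1 : dat b T y j ≤ Nat.log b (b * d) :=
    Nat.log_mono_right (Nat.mul_le_mul_left _ (cnt_le_card _ _))
  have h2 := j.2
  omega

/-- The general statement: portfolios for all sets of nonnegative vectors which have an element of
almost minimal maximum. -/
lemma main {d : ℕ} (hd : 1 ≤ d) {b n : ℕ} (hb : 2 ≤ b) (hn : 2 * d ^ 2 ≤ b ^ n)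
    {P : Set (Fin d → ℝ)} (hP : ∀ x ∈ P, ∀ i, 0 ≤ x i) {x₀ : Fin d → ℝ} (hx₀ : x₀ ∈ P)
    (hmin : ∀ y ∈ P, ‖x₀‖ ≤ 2 * ‖y‖) :
    ∃ X : Finset (Fin d → ℝ), IsPortfolio (2 * ((b : ℝ) ^ 2 + 1)) P X ∧
      X.card ≤ 2 ^ (n + 1 + Nat.log b (b * d)) + 1 := by
  classical
  let i₀ : Fin d := ⟨0, hd⟩
  set s := ‖x₀‖ with hs
  have hs0 : 0 ≤ s := norm_nonneg _
  have hd0 : (0 : ℝ) < d := by exact_mod_cast hd
  have hb0 : (0 : ℝ) < b := by positivity
  rcases eq_or_lt_of_le hs0 with h0 | hspos
  · -- the zero vector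
    have hx0 : x₀ = 0 := norm_eq_zero.1 (h0.symm ▸ hs.symm : ‖x₀‖ = 0)
    refine ⟨{x₀}, ⟨by simpa using hx₀, ?_⟩, ?_⟩
    · intro f hf
      refine ⟨x₀, mem_singleton_self _, ?_⟩
      rw [hx0, hf.zero]
      apply mul_nonneg (by positivity)
      apply Real.sInf_nonneg
      rintro _ ⟨y, -, rfl⟩
      exact hf.nonneg y
    · simp
  -- the general case
  set T : ℝ := d * s with hTdef
  have hT : 0 < T := by positivity
  let good : Finset ℕ → Prop := fun E => ∃ y ∈ P, (∀ i, y i < T) ∧ code b n T y = E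
  let rep : Finset ℕ → (Fin d → ℝ) := fun E => if h : good E then h.choose else x₀
  let X : Finset (Fin d → ℝ) :=
    insert x₀ (((range (n + 1 + Nat.log b (b * d))).powerset).image rep)
  refine ⟨X, ⟨?_, ?_⟩, ?_⟩
  · intro x hx
    simp only [X, coe_insert, coe_image, Set.mem_insert_iff, Set.mem_image, mem_coe] at hx
    rcases hx with rfl | ⟨E, -, rfl⟩
    · exact hx₀
    · simp only [rep]
      split_ifs with h
      · exact h.choose_spec.1
      · exact hx₀
  · intro f hf
    have he := hf.single_pos i₀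
    -- the infimum is positive
    have hne : (f '' P).Nonempty := ⟨_, x₀, hx₀, rfl⟩
    have hinf : s / 2 * f (Pi.single i₀ 1) ≤ sInf (f '' P) := by
      apply le_csInf hne
      rintro _ ⟨y, hy, rfl⟩
      refine le_trans ?_ (hf.ge_coord i₀ (hP y hy))
      apply mul_le_mul_of_nonneg_right _ he.le
      have := hmin y hy
      linarith
    have hinf0 : 0 < sInf (f '' P) := lt_of_lt_of_le (by positivity) hinf
    obtain ⟨_, ⟨y, hy, rfl⟩, hyinf⟩ := exists_lt_of_csInf_lt hne
      (show sInf (f '' P) < 2 * sInf (f '' P) by linarith)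
    have hb2 : (1 : ℝ) ≤ (b : ℝ) ^ 2 + 1 := by nlinarith [sq_nonneg (b : ℝ)]
    by_cases hyT : ∀ i, y i < T
    · -- the representative of the cell of `y`
      have hgood : good (code b n T y) := ⟨y, hy, hyT, rfl⟩
      refine ⟨rep (code b n T y), ?_, ?_⟩
      · simp only [X, mem_insert, mem_image]
        right
        exact ⟨_, code_subset y, rfl⟩
      · have hrep : rep (code b n T y) = hgood.choose := dif_pos hgood
        rw [hrep]
        obtain ⟨h1, h2, h3⟩ := hgood.choose_spec
        have h4 : f hgood.choose ≤ (b ^ 2 + 1) * f y := by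
          refine domination hf i₀ (hP _ h1) (hP y hy) (by omega) hT h2 (n := n) ?_ ?_
          · have h5 : (2 : ℝ) * d ^ 2 ≤ b ^ n := by exact_mod_cast hn
            have h6 : T / b ^ n * d ≤ s / 2 := by
              rw [hTdef, div_mul_eq_mul_div, div_le_div_iff₀ (by positivity) (by norm_num)]
              nlinarith
            have h7 := hmin y hy
            linarith
          · intro j hj
            exact cnt_le_of_dat_eq hb (dat_eq_of_code_eq (by omega) hT h3 j hj)
        calc f hgood.choose ≤ (b ^ 2 + 1) * f y := h4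
          _ ≤ (b ^ 2 + 1) * (2 * sInf (f '' P)) :=
              mul_le_mul_of_nonneg_left hyinf.le (by positivity)
          _ = 2 * ((b : ℝ) ^ 2 + 1) * sInf (f '' P) := by ring
    · -- `x₀` is good enough
      push Not at hyT
      obtain ⟨i, hi⟩ := hyT
      refine ⟨x₀, by simp [X], ?_⟩
      have h1 : f x₀ ≤ s * d * f (Pi.single i₀ 1) := by
        apply hf.le_of_le i₀ hs0 (hP _ hx₀)
        intro k
        calc x₀ k ≤ ‖x₀ k‖ := le_abs_self _
          _ ≤ s := norm_le_pi_norm x₀ k
      have h2 : T ≤ ‖y‖ := hi.trans ((le_abs_self _).trans (norm_le_pi_norm y i))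
      have h3 := hf.ge_coord i₀ (hP y hy)
      calc f x₀ ≤ s * d * f (Pi.single i₀ 1) := h1
        _ = T * f (Pi.single i₀ 1) := by rw [hTdef]; ring
        _ ≤ ‖y‖ * f (Pi.single i₀ 1) := mul_le_mul_of_nonneg_right h2 he.le
        _ ≤ f y := h3
        _ ≤ 2 * sInf (f '' P) := hyinf.le
        _ ≤ 2 * ((b : ℝ) ^ 2 + 1) * sInf (f '' P) := by nlinarith
  · calc X.card ≤ (((range (n + 1 + Nat.log b (b * d))).powerset).image rep).card + 1 :=
          Finset.card_insert_le _ _
      _ ≤ ((range (n + 1 + Nat.log b (b * d))).powerset).card + 1 := by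
          gcongr
          exact Finset.card_image_le
      _ = 2 ^ (n + 1 + Nat.log b (b * d)) + 1 := by rw [card_powerset, card_range]

/-- Covering polyhedra have a point of almost minimal maximum. -/
lemma exists_min {r d : ℕ} (A : Matrix (Fin r) (Fin d) ℝ) (b : Fin r → ℝ)
    (hA : ∀ i j, 0 ≤ A i j) (hne : (coveringPolyhedron A b).Nonempty) :
    ∃ x₀ ∈ coveringPolyhedron A b, ∀ y ∈ coveringPolyhedron A b, ‖x₀‖ ≤ 2 * ‖y‖ := by
  by_cases h : (0 : Fin d → ℝ) ∈ coveringPolyhedron A b
  · exact ⟨0, h, fun y _ => by simp⟩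
  · have h1 : ∃ i, 0 < b i := by
      by_contra hcon
      push Not at hcon
      apply h
      refine ⟨fun j => le_rfl, fun i => ?_⟩
      simpa using hcon i
    obtain ⟨i, hi⟩ := h1
    have key : ∀ y ∈ coveringPolyhedron A b, b i ≤ (∑ j, A i j) * ‖y‖ := by
      intro y hy
      refine (hy.2 i).trans ?_
      rw [Finset.sum_mul]
      apply Finset.sum_le_sum
      intro j _
      apply mul_le_mul_of_nonneg_left _ (hA i j)
      exact (le_abs_self _).trans (norm_le_pi_norm y j)
    obtain ⟨y₁, hy₁⟩ := hne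
    have hsum : 0 < ∑ j, A i j := by
      by_contra hcon
      push Not at hcon
      have h2 := key y₁ hy₁
      nlinarith [norm_nonneg y₁]
    let N : Set ℝ := (fun y => ‖y‖) '' coveringPolyhedron A b
    have hN : N.Nonempty := ⟨_, y₁, hy₁, rfl⟩
    have hpos : 0 < sInf N := by
      refine lt_of_lt_of_le (div_pos hi hsum) (le_csInf hN ?_)
      rintro _ ⟨y, hy, rfl⟩
      rw [div_le_iff₀ hsum, mul_comm]
      exact key y hy
    obtain ⟨_, ⟨x₀, hx₀, rfl⟩, hlt⟩ := exists_lt_of_csInf_lt hN
      (show sInf N < 2 * sInf N by linarith)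
    refine ⟨x₀, hx₀, fun y hy => ?_⟩
    have h3 : sInf N ≤ ‖y‖ := csInf_le ⟨0, by rintro _ ⟨z, -, rfl⟩; exact norm_nonneg z⟩
      ⟨y, hy, rfl⟩
    simp only at hlt
    linarith

lemma IsPortfolio.mono {d : ℕ} {α β : ℝ} (hαβ : α ≤ β) {P : Set (Fin d → ℝ)}
    {X : Finset (Fin d → ℝ)} (h : IsPortfolio α P X) : IsPortfolio β P X := by
  refine ⟨h.1, fun f hf => ?_⟩
  obtain ⟨x, hx, hle⟩ := h.2 f hf
  refine ⟨x, hx, hle.trans (mul_le_mul_of_nonneg_right hαβ ?_)⟩
  apply Real.sInf_nonneg
  rintro _ ⟨y, -, rfl⟩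
  exact hf.nonneg y

/-- The size of the portfolio. -/
lemma size_bound {δ : ℝ} (hδ : 0 < δ) {d b : ℕ} (hd : 2 ≤ d) (hb : 2 ≤ b)
    (h1 : 8 / δ ≤ Real.log b) (h2 : 8 / δ < Real.log d) :
    ((2 ^ (Nat.clog b (2 * d ^ 2) + 1 + Nat.log b (b * d)) + 1 : ℕ) : ℝ) < (d : ℝ) ^ δ := by
  set n := Nat.clog b (2 * d ^ 2) with hn
  set k := Nat.log b (b * d) with hk
  have hb1 : (1 : ℝ) < b := by exact_mod_cast (by omega : 1 < b)
  have hd1 : (1 : ℝ) < d := by exact_mod_cast (by omega : 1 < d)
  have hd0 : (0 : ℝ) < d := by linarith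
  have hlb : 0 < Real.log b := Real.log_pos hb1
  have hld : 0 < Real.log d := Real.log_pos hd1
  have hl2 : Real.log 2 ≤ Real.log d :=
    Real.log_le_log (by norm_num) (by exact_mod_cast hd)
  have hl21 : Real.log 2 ≤ 1 := by
    have := Real.log_two_lt_d9
    linarith
  have hl20 : 0 < Real.log 2 := Real.log_pos (by norm_num)
  have hn1 : 1 ≤ n := Nat.clog_pos (by omega) (by nlinarith)
  -- bound for `n`
  have hn2 : ((n : ℝ) - 1) * Real.log b ≤ 3 * Real.log d := by
    have h3 : b ^ (n - 1) < 2 * d ^ 2 := Nat.pow_pred_clog_lt_self (by omega) (by nlinarith)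
    have h4 : (b : ℝ) ^ (n - 1) ≤ 2 * d ^ 2 := by exact_mod_cast h3.le
    have h5 := Real.log_le_log (by positivity) h4
    rw [Real.log_pow, Real.log_mul (by norm_num) (by positivity), Real.log_pow,
      Nat.cast_sub hn1] at h5
    push_cast at h5
    linarith
  -- bound for `k`
  have hk2 : ((k : ℝ) - 1) * Real.log b ≤ Real.log d := by
    have h3 : b ^ k ≤ b * d := Nat.pow_log_le_self b (by positivity)
    have h4 : (b : ℝ) ^ k ≤ b * d := by exact_mod_cast h3
    have h5 := Real.log_le_log (by positivity) h4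
    rw [Real.log_pow, Real.log_mul (by positivity) (by positivity)] at h5
    linarith
  have h3 : ((n : ℝ) + k - 2) * (8 / δ) ≤ 4 * Real.log d := by
    have hn1' : (1 : ℝ) ≤ n := by exact_mod_cast hn1
    have hk1 : 1 ≤ k := by
      rw [hk]
      apply Nat.le_log_of_pow_le (by omega)
      nlinarith
    have hk1' : (1 : ℝ) ≤ k := by exact_mod_cast hk1
    calc ((n : ℝ) + k - 2) * (8 / δ) ≤ ((n : ℝ) + k - 2) * Real.log b :=
          mul_le_mul_of_nonneg_left h1 (by linarith)
      _ = ((n : ℝ) - 1) * Real.log b + ((k : ℝ) - 1) * Real.log b := by ring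
      _ ≤ 4 * Real.log d := by linarith
  have h4 : (n : ℝ) + k - 2 ≤ δ / 2 * Real.log d := by
    have h5 : ((n : ℝ) + k - 2) * 8 ≤ 4 * Real.log d * δ := by
      have := mul_le_mul_of_nonneg_right h3 hδ.le
      calc ((n : ℝ) + k - 2) * 8 = ((n : ℝ) + k - 2) * (8 / δ) * δ := by
            field_simp
        _ ≤ 4 * Real.log d * δ := this
    linarith
  have h5 : 8 < δ * Real.log d := by
    rw [div_lt_iff₀ hδ] at h2
    linarith
  have h6 : ((2 ^ (n + 1 + k) + 1 : ℕ) : ℝ) ≤ 2 ^ (n + k + 2) := by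
    push_cast
    have h7 : (1 : ℝ) ≤ 2 ^ (n + 1 + k) := one_le_pow₀ (by norm_num)
    have h8 : (2 : ℝ) ^ (n + k + 2) = 2 ^ (n + 1 + k) * 2 := by
      rw [← pow_succ]
      congr 1
      ring
    rw [h8]
    linarith
  refine lt_of_le_of_lt h6 ?_
  rw [← Real.rpow_natCast, Real.rpow_def_of_pos (by norm_num), Real.rpow_def_of_pos hd0,
    Real.exp_lt_exp]
  push_cast
  have h9 : 0 ≤ (n : ℝ) + k + 2 := by positivity
  calc Real.log 2 * ((n : ℝ) + k + 2) ≤ 1 * ((n : ℝ) + k + 2) :=
        mul_le_mul_of_nonneg_right hl21 h9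
    _ = (n : ℝ) + k - 2 + 4 := by ring
    _ < Real.log d * δ := by linarith

/-- For all constants `c, δ > 0` and all sufficiently large `d`, every nonempty covering polyhedron
in `ℝ^d` (with any number `r` of constraints) has a `(c log d)`-approximate portfolio for the
symmetric monotonic norms with fewer than `d^δ` elements. -/
theorem result (c δ : ℝ) (hc : 0 < c) (hδ : 0 < δ) :
    ∃ d₀ : ℕ, ∀ d ≥ d₀, ∀ (r : ℕ) (A : Matrix (Fin r) (Fin d) ℝ) (b : Fin r → ℝ),
      (∀ i j, 0 ≤ A i j) → (∀ i, 0 ≤ b i) → (coveringPolyhedron A b).Nonempty →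
      ∃ X : Finset (Fin d → ℝ),
        IsPortfolio (c * Real.log d) (coveringPolyhedron A b) X ∧ (X.card : ℝ) < (d : ℝ) ^ δ := by
  have hlog : Filter.Tendsto (fun d : ℕ => Real.log (d : ℝ)) Filter.atTop Filter.atTop :=
    Real.tendsto_log_atTop.comp tendsto_natCast_atTop_atTop
  set B : ℝ := Real.exp (8 / δ) + 2 with hB
  have hB0 : 2 < B := by have := Real.exp_pos (8 / δ); linarith
  obtain ⟨d₀, hd₀⟩ := Filter.eventually_atTop.1
    (((hlog.eventually (Filter.eventually_gt_atTop (8 / δ))).and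
      (hlog.eventually (Filter.eventually_ge_atTop (4 / c * B ^ 2)))).and
      (Filter.eventually_ge_atTop 2))
  refine ⟨d₀, fun d hd r A b hA _ hne => ?_⟩
  obtain ⟨⟨h1, h2⟩, h3⟩ := hd₀ d hd
  set β : ℕ := ⌊√(c * Real.log d / 4)⌋₊ with hβ
  have h4 : B ^ 2 ≤ c * Real.log d / 4 := by
    have := mul_le_mul_of_nonneg_left h2 hc.le
    have h5 : c * (4 / c * B ^ 2) = 4 * B ^ 2 := by field_simp
    rw [h5] at this
    linarith
  have h5 : B ≤ √(c * Real.log d / 4) := Real.le_sqrt_of_sq_le h4
  have h6 : B - 1 < β := by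
    have := Nat.lt_floor_add_one (√(c * Real.log d / 4))
    rw [← hβ] at this
    linarith
  have h7 : (β : ℝ) ≤ √(c * Real.log d / 4) := Nat.floor_le (Real.sqrt_nonneg _)
  have h8 : 2 ≤ β := by
    have : (1 : ℝ) < β := by linarith
    exact_mod_cast this
  have h9 : (β : ℝ) ^ 2 ≤ c * Real.log d / 4 := by
    have h10 : 0 ≤ c * Real.log d / 4 := le_trans (sq_nonneg B) h4
    calc (β : ℝ) ^ 2 ≤ √(c * Real.log d / 4) ^ 2 := by gcongr
      _ = c * Real.log d / 4 := Real.sq_sqrt h10
  have h10 : 8 / δ ≤ Real.log β := by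
    rw [Real.le_log_iff_exp_le (by linarith)]
    linarith
  obtain ⟨x₀, hx₀, hmin⟩ := exists_min A b hA hne
  obtain ⟨X, hX1, hX2⟩ := main (d := d) (by omega) h8 (Nat.le_pow_clog (by omega) (2 * d ^ 2))
    (fun x hx => hx.1) hx₀ hmin
  refine ⟨X, hX1.mono ?_, ?_⟩
  · nlinarith
  · refine lt_of_le_of_lt ?_ (size_bound hδ h3 h8 h10 h1)
    exact_mod_cast hX2

end Pool.Agent.Results.MP_a76361_lc.SubpolynomialPortfolios
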